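import Pool.Agent.Q48.EN.Low

/-!
# Project EN (helper270): sets of primes with convergent sum of the reciprocals
-/

set_option autoImplicit false

namespace Pool.Agent.Q48.EN

open Finset Filter Topology MeasureTheory
open Pool.Agent.Q270.EN

/-- the tails of the sum of the reciprocals -/
lemma ms_tail (P : Set ℕ) (hP : Summable fun p : {p : ℕ // p.Prime ∧ p ∈ P} => 1 / ((p : ℕ) : ℝ))
    {δ : ℝ} (hδ : 0 < δ) : ∃ Y0 : ℕ, ∀ Y, Y0 ≤ Y → ∀ X, ms P Y X ≤ δ := by
  classical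
  have h1 : Summable (Set.indicator {p : ℕ | p.Prime ∧ p ∈ P} fun p : ℕ => 1 / (p : ℝ)) :=
    summable_subtype_iff_indicator.1 hP
  obtain ⟨s, hs⟩ := summable_iff_vanishing_norm.1 h1 δ hδ
  refine ⟨s.sup id, fun Y hY X => ?_⟩
  have h2 := hs ((pr P X).filter (Y < ·)) (by
    rw [Finset.disjoint_left]
    intro p hp hps
    have h3 : p ≤ s.sup id := Finset.le_sup (f := id) hps
    have h4 := (Finset.mem_filter.1 hp).2
    omega)
  have h3 : ms P Y X = ∑ p ∈ (pr P X).filter (Y < ·),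
      Set.indicator {p : ℕ | p.Prime ∧ p ∈ P} (fun p : ℕ => 1 / (p : ℝ)) p := by
    unfold ms
    refine Finset.sum_congr rfl fun p hp => ?_
    have h4 := mem_pr.1 (Finset.mem_filter.1 hp).1
    rw [Set.indicator_of_mem (show p ∈ {p : ℕ | p.Prime ∧ p ∈ P} from ⟨h4.1, h4.2.1⟩)]
  rw [h3]
  exact ((le_abs_self _).trans (le_of_eq (Real.norm_eq_abs _).symm)).trans h2.le

/-- the exponents of a prime in congruent numbers -/
lemma fact_congr {m m0 p j : ℕ} (hp : p.Prime) (hm : m ≠ 0) (hm0 : m0 ≠ 0) (hj : m0 < j)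
    (h : m ≡ m0 [MOD p ^ j]) : m.factorization p = m0.factorization p := by
  have hv : m0.factorization p < j := by
    by_contra hcon
    push Not at hcon
    have h1 : p ^ j ∣ m0 := (hp.pow_dvd_iff_le_factorization hm0).2 hcon
    have h2 := Nat.le_of_dvd (Nat.pos_of_ne_zero hm0) h1
    have h3 : j < p ^ j := Nat.lt_pow_self hp.one_lt
    omega
  have key : ∀ i ≤ j, (p ^ i ∣ m ↔ p ^ i ∣ m0) := by
    intro i hi
    have h1 : m ≡ m0 [MOD p ^ i] := h.of_dvd (pow_dvd_pow p hi)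
    exact h1.dvd_iff dvd_rfl
  apply le_antisymm
  · by_contra hcon
    push Not at hcon
    have h1 : p ^ (m0.factorization p + 1) ∣ m := (hp.pow_dvd_iff_le_factorization hm).2 hcon
    rw [key _ hv] at h1
    have h2 := (hp.pow_dvd_iff_le_factorization hm0).1 h1
    omega
  · have h1 : p ^ (m0.factorization p) ∣ m0 := (hp.pow_dvd_iff_le_factorization hm0).2 le_rfl
    rw [← key _ hv.le] at h1
    exact (hp.pow_dvd_iff_le_factorization hm).1 h1

/-- the product of the forms at congruent arguments -/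
lemma prod_modEq (T : Finset (ℕ × ℕ)) {n n' Q : ℕ} (h : n ≡ n' [MOD Q]) :
    (∏ q ∈ T, (q.1 * n + q.2)) ≡ ∏ q ∈ T, (q.1 * n' + q.2) [MOD Q] := by
  classical
  induction T using Finset.induction_on with
  | empty => exact Nat.ModEq.refl _
  | insert q T hq ih =>
    rw [Finset.prod_insert hq, Finset.prod_insert hq]
    exact ((h.mul_left _).add_right _).mul ih

/-- few primes -/
lemma card_pr_le (P : Set ℕ) (Y X : ℕ) : ((pr P X).card : ℝ) ≤ Y + X * ms P Y X := by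
  classical
  have h1 := Finset.card_filter_add_card_filter_not (s := pr P X) (fun p => p ≤ Y)
  have h2 : ((pr P X).filter fun p => p ≤ Y).card ≤ Y := by
    have h3 : ((pr P X).filter fun p => p ≤ Y) ⊆ Icc 1 Y := by
      intro p hp
      rw [Finset.mem_filter, mem_pr] at hp
      rw [Finset.mem_Icc]
      exact ⟨hp.1.1.one_lt.le, hp.2⟩
    have := Finset.card_le_card h3
    simpa using this
  have h3 : (((pr P X).filter fun p => ¬ p ≤ Y).card : ℝ) ≤ X * ms P Y X := by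
    have h4 : ((pr P X).filter fun p => ¬ p ≤ Y) = (pr P X).filter (Y < ·) := by
      refine Finset.filter_congr fun p _ => ?_
      exact not_le
    rw [h4]
    unfold ms
    rw [Finset.mul_sum, Finset.card_eq_sum_ones]
    push_cast
    refine Finset.sum_le_sum fun p hp => ?_
    obtain ⟨h5, h6⟩ := Finset.mem_filter.1 hp
    have h7 := mem_pr.1 h5
    have h8 : (0 : ℝ) < p := by exact_mod_cast h7.1.pos
    rw [mul_one_div, le_div_iff₀ h8, one_mul]
    exact_mod_cast h7.2.2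
  have h4 : ((pr P X).card : ℝ) = (((pr P X).filter fun p => p ≤ Y).card : ℝ) +
      (((pr P X).filter fun p => ¬ p ≤ Y).card : ℝ) := by
    rw [← h1]
    push_cast
    rfl
  rw [h4]
  have h5 : (((pr P X).filter fun p => p ≤ Y).card : ℝ) ≤ Y := by exact_mod_cast h2
  linarith

/-- S_NEC. -/
theorem t_NEC : S_NEC := by
  classical
  intro P hP A T hT
  obtain ⟨q0, hq0⟩ := hT.1
  have hA1 : 1 ≤ A := (hT.2.1 q0 hq0).1.trans (hT.2.1 q0 hq0).2.1
  have hA1r : (1 : ℝ) ≤ A := by exact_mod_cast hA1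
  obtain ⟨k, hk⟩ : ∃ k, k = T.card := ⟨_, rfl⟩
  have hk1 : 1 ≤ k := by rw [hk]; exact hT.1.card_pos
  have hk1r : (1 : ℝ) ≤ k := by exact_mod_cast hk1
  obtain ⟨M, hM⟩ : ∃ M : ℕ → ℕ, M = fun n => ∏ q ∈ T, (q.1 * n + q.2) := ⟨_, rfl⟩
  have hMne : ∀ n, 1 ≤ n → M n ≠ 0 := by
    intro n hn
    rw [hM]
    refine Finset.prod_ne_zero_iff.2 fun q hq => ?_
    have h8 := (hT.2.1 q hq).1
    have h9 : 1 ≤ q.1 * n := Nat.mul_pos h8 hn
    omega
  obtain ⟨Y0, hY0⟩ := ms_tail P hP (show (0 : ℝ) < 1 / (4 * k) by positivity)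
  obtain ⟨p0, hp0⟩ : ∃ p0, p0 = max A Y0 := ⟨_, rfl⟩
  have hp0A : A ≤ p0 := by rw [hp0]; exact le_max_left _ _
  have hp0Y : Y0 ≤ p0 := by rw [hp0]; exact le_max_right _ _
  obtain ⟨Q, hQ⟩ : ∃ Q, Q = (p0.factorial) ^ (M 1 + 1) := ⟨_, rfl⟩
  have hQ1 : 1 ≤ Q := by
    rw [hQ]
    exact Nat.pow_pos (Nat.factorial_pos _)
  have hQ1r : (1 : ℝ) ≤ Q := by exact_mod_cast hQ1
  have hQcop : ∀ p : ℕ, p.Prime → p0 < p → Nat.Coprime Q p := by
    intro p hp hpp
    rw [hQ]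
    apply Nat.Coprime.pow_left
    rw [Nat.coprime_comm, Nat.Prime.coprime_iff_not_dvd hp, hp.dvd_factorial]
    omega
  -- the weights
  obtain ⟨Gd, hGd⟩ : ∃ Gd : ℕ → Prop, Gd = fun n => n ≡ 1 [MOD Q] ∧
    ∀ p : ℕ, p.Prime → p ∈ P → p0 < p → ¬ p ∣ M n := ⟨_, rfl⟩
  refine ⟨fun n => if Gd n then 1 else 0, 1 / (2 * Q), ?_, by positivity, ?_⟩
  · intro n
    simp only
    split_ifs <;> simp
  obtain ⟨Y1, hY1⟩ := ms_tail P hP (show (0 : ℝ) < 1 / (16 * A * k * Q) by positivity)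
  have hev : ∀ᶠ N : ℕ in atTop, 8 * (Q : ℝ) * (2 + k * Y1) ≤ N :=
    tendsto_natCast_atTop_atTop.eventually_ge_atTop _
  filter_upwards [hev, eventually_ge_atTop (max 1 p0)] with N hN1 hN2 s hs
  have hN1' : 1 ≤ N := (le_max_left _ _).trans hN2
  have hNp0 : p0 ≤ N := (le_max_right _ _).trans hN2
  obtain ⟨X, hX⟩ : ∃ X, X = 2 * A * N := ⟨_, rfl⟩
  have hAN : A ≤ A * N := Nat.le_mul_of_pos_right _ hN1'
  have hT' : Adm A (A * N) T := ⟨hT.1, fun q hq => ⟨(hT.2.1 q hq).1, (hT.2.1 q hq).2.1,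
    (hT.2.1 q hq).2.2.trans hAN⟩, hT.2.2⟩
  have hXp0 : p0 ≤ X := by
    rw [hX]
    nlinarith
  -- the products
  obtain ⟨σ, hσ⟩ : ∃ σ : ℝ, σ = ∏ p ∈ odd (pr P p0) (M 1), s p := ⟨_, rfl⟩
  have hprod : ∀ n ∈ Icc 1 N, Gd n → ∏ q ∈ T, cmf P s (q.1 * n + q.2) = σ := by
    intro n hn hgn
    rw [hGd] at hgn
    rw [prod_cmf hs hT' hn, hσ, ← hX]
    have hn1 := (Finset.mem_Icc.1 hn).1
    have hMn : M n = ∏ q ∈ T, (q.1 * n + q.2) := by rw [hM]
    rw [← hMn]
    refine Finset.prod_congr ?_ fun p _ => rfl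
    ext p
    unfold odd
    simp only [Finset.mem_filter, mem_pr]
    have hmod : M n ≡ M 1 [MOD Q] := by
      rw [hM]
      exact prod_modEq T hgn.1
    constructor
    · rintro ⟨⟨h1, h2, h3⟩, h4⟩
      have h5 : p ≤ p0 := by
        by_contra h6
        push Not at h6
        apply hgn.2 p h1 h2 h6
        apply Nat.dvd_of_factorization_pos
        intro h7
        rw [h7] at h4
        exact absurd h4 (by decide)
      refine ⟨⟨h1, h2, h5⟩, ?_⟩
      have h6 : p ^ (M 1 + 1) ∣ Q := by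
        rw [hQ]
        exact pow_dvd_pow_of_dvd ((h1.dvd_factorial).2 h5) _
      rw [← fact_congr h1 (hMne n hn1) (hMne 1 le_rfl) (Nat.lt_succ_self _) (hmod.of_dvd h6)]
      exact h4
    · rintro ⟨⟨h1, h2, h3⟩, h4⟩
      refine ⟨⟨h1, h2, h3.trans hXp0⟩, ?_⟩
      have h6 : p ^ (M 1 + 1) ∣ Q := by
        rw [hQ]
        exact pow_dvd_pow_of_dvd ((h1.dvd_factorial).2 h3) _
      rw [fact_congr h1 (hMne n hn1) (hMne 1 le_rfl) (Nat.lt_succ_self _) (hmod.of_dvd h6)]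
      exact h4
  have hσ1 : |σ| = 1 := by
    rw [hσ, Finset.abs_prod]
    refine Finset.prod_eq_one fun p _ => ?_
    rcases hs p with h | h <;> rw [h] <;> simp
  obtain ⟨G, hG⟩ : ∃ G, G = (Icc 1 N).filter Gd := ⟨_, rfl⟩
  have hsum : ‖∑ n ∈ Icc 1 N, (if Gd n then (1 : ℂ) else 0) *
      ((∏ q ∈ T, cmf P s (q.1 * n + q.2) : ℝ) : ℂ)‖ = G.card := by
    have h1 : ∑ n ∈ Icc 1 N, (if Gd n then (1 : ℂ) else 0) *
      ((∏ q ∈ T, cmf P s (q.1 * n + q.2) : ℝ) : ℂ) = ∑ n ∈ Icc 1 N, if Gd n then (σ : ℂ) else 0 := by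
      refine Finset.sum_congr rfl fun n hn => ?_
      split_ifs with h
      · rw [hprod n hn h, one_mul]
      · rw [zero_mul]
    rw [h1, ← Finset.sum_filter, ← hG, Finset.sum_const, nsmul_eq_mul, norm_mul,
      Complex.norm_real, Real.norm_eq_abs, hσ1, mul_one, Complex.norm_natCast]
  rw [hsum]
  -- the count
  obtain ⟨K, hK⟩ : ∃ K, K = (N - 1) / Q := ⟨_, rfl⟩
  obtain ⟨R, hR⟩ : ∃ R, R = (pr P X).filter (p0 < ·) := ⟨_, rfl⟩
  obtain ⟨I, hI⟩ : ∃ I, I = (Icc 1 K).filter fun i => ∀ p ∈ R, ¬ p ∣ M (1 + Q * i) := ⟨_, rfl⟩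
  have hiN : ∀ i ∈ Icc 1 K, 1 + Q * i ≤ N := by
    intro i hi
    have h1 := (Finset.mem_Icc.1 hi).2
    have h2 : Q * K ≤ N - 1 := by
      rw [hK]
      exact Nat.mul_div_le _ _
    have h3 : Q * i ≤ Q * K := Nat.mul_le_mul_left _ h1
    omega
  have hIG : I.card ≤ G.card := by
    refine Finset.card_le_card_of_injOn (fun i => 1 + Q * i) ?_ ?_
    · intro i hi
      rw [Finset.mem_coe, hI, Finset.mem_filter] at hi
      rw [Finset.mem_coe, hG, Finset.mem_filter, Finset.mem_Icc, hGd]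
      simp only
      have h1 := hiN i hi.1
      refine ⟨⟨by omega, h1⟩, ?_, ?_⟩
      · exact (Nat.modEq_iff_dvd' (by omega)).2 (by simp) |>.symm
      · intro p hp1 hp2 hp3 hp4
        refine hi.2 p ?_ hp4
        rw [hR, Finset.mem_filter, mem_pr]
        refine ⟨⟨hp1, hp2, ?_⟩, hp3⟩
        rw [hM] at hp4
        rw [Prime.dvd_finsetProd_iff hp1.prime] at hp4
        obtain ⟨q, hq, h7⟩ := hp4
        have h8 := Nat.le_of_dvd (by
          have := (hT.2.1 q hq).1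
          have h9 : 0 < q.1 * (1 + Q * i) := Nat.mul_pos this (by omega)
          omega) h7
        have h9 : q.1 * (1 + Q * i) ≤ A * N := Nat.mul_le_mul (hT.2.1 q hq).2.1 h1
        have h10 := (hT'.2.1 q hq).2.2
        have h11 : 2 * A * N = A * N + A * N := by ring
        omega
    · intro i _ i' _ h
      simp only at h
      have h2 : Q * i = Q * i' := by omega
      exact Nat.eq_of_mul_eq_mul_left hQ1 h2
  have hbad : (K : ℝ) ≤ I.card + ∑ q ∈ T, ∑ p ∈ R,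
      ((((Icc 1 K).filter fun i => p ∣ (q.1 * Q) * i + (q.1 + q.2)).card : ℕ) : ℝ) := by
    have h1 : Icc 1 K ⊆ I ∪ T.biUnion fun q => R.biUnion fun p =>
        (Icc 1 K).filter fun i => p ∣ (q.1 * Q) * i + (q.1 + q.2) := by
      intro i hi
      rw [Finset.mem_union]
      by_cases h2 : ∀ p ∈ R, ¬ p ∣ M (1 + Q * i)
      · left
        rw [hI]
        exact Finset.mem_filter.2 ⟨hi, h2⟩
      · right
        push Not at h2
        obtain ⟨p, hp, h3⟩ := h2
        have hpp : p.Prime := by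
          rw [hR] at hp
          exact (mem_pr.1 (Finset.mem_filter.1 hp).1).1
        rw [hM] at h3
        rw [Prime.dvd_finsetProd_iff hpp.prime] at h3
        obtain ⟨q, hq, h7⟩ := h3
        rw [Finset.mem_biUnion]
        refine ⟨q, hq, ?_⟩
        rw [Finset.mem_biUnion]
        refine ⟨p, hp, Finset.mem_filter.2 ⟨hi, ?_⟩⟩
        have h8 : (q.1 * Q) * i + (q.1 + q.2) = q.1 * (1 + Q * i) + q.2 := by ring
        rw [h8]
        exact h7
    have h2 := (Finset.card_le_card h1).trans (Finset.card_union_le _ _)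
    rw [Nat.card_Icc, Nat.add_sub_cancel] at h2
    have h3 : (T.biUnion fun q => R.biUnion fun p =>
        (Icc 1 K).filter fun i => p ∣ (q.1 * Q) * i + (q.1 + q.2)).card ≤
        ∑ q ∈ T, ∑ p ∈ R, ((Icc 1 K).filter fun i => p ∣ (q.1 * Q) * i + (q.1 + q.2)).card :=
      Finset.card_biUnion_le.trans (Finset.sum_le_sum fun q _ => Finset.card_biUnion_le)
    have h4 := h2.trans (Nat.add_le_add_left h3 _)
    exact_mod_cast h4
  have hcnt : ∀ q ∈ T, ∀ p ∈ R,
      ((((Icc 1 K).filter fun i => p ∣ (q.1 * Q) * i + (q.1 + q.2)).card : ℕ) : ℝ) ≤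
        K * (1 / (p : ℝ)) + 1 := by
    intro q hq p hp
    rw [hR, Finset.mem_filter, mem_pr] at hp
    have hcop : Nat.Coprime (q.1 * Q) p := by
      apply Nat.Coprime.mul_left
      · rw [Nat.coprime_comm, Nat.Prime.coprime_iff_not_dvd hp.1.1]
        intro h4
        have h5 := Nat.le_of_dvd (by have := (hT.2.1 q hq).1; omega) h4
        have := (hT.2.1 q hq).2.1
        omega
      · exact hQcop p hp.1.1 hp.2
    have h4 := (abs_le.1 (Pool.Agent.Q163.RP.card_dvd K p (q.1 * Q) (q.1 + q.2) hp.1.1.pos hcop)).2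
    have h5 : (K : ℝ) * (1 / p) = K / p := by ring
    rw [h5]
    linarith
  have hms0 : ∑ p ∈ R, 1 / (p : ℝ) ≤ 1 / (4 * k) := by
    have h1 := hY0 p0 hp0Y X
    unfold ms at h1
    rw [hR]
    exact h1
  have hRc : (R.card : ℝ) ≤ Y1 + N / (8 * k * Q) := by
    have h1 : (R.card : ℝ) ≤ (pr P X).card := by
      rw [hR]
      exact_mod_cast Finset.card_filter_le _ _
    have h2 := card_pr_le P Y1 X
    have h3 := hY1 Y1 le_rfl X
    have h4 : (X : ℝ) * ms P Y1 X ≤ X * (1 / (16 * A * k * Q)) :=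
      mul_le_mul_of_nonneg_left h3 (Nat.cast_nonneg _)
    have h5 : (X : ℝ) * (1 / (16 * A * k * Q)) = N / (8 * k * Q) := by
      rw [hX]
      push_cast
      field_simp
      ring
    linarith
  have htot : ∑ q ∈ T, ∑ p ∈ R,
      ((((Icc 1 K).filter fun i => p ∣ (q.1 * Q) * i + (q.1 + q.2)).card : ℕ) : ℝ) ≤
      K / 4 + k * Y1 + N / (8 * Q) := by
    have h1 : ∀ q ∈ T, ∑ p ∈ R,
        ((((Icc 1 K).filter fun i => p ∣ (q.1 * Q) * i + (q.1 + q.2)).card : ℕ) : ℝ) ≤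
        K * (1 / (4 * k)) + (Y1 + N / (8 * k * Q)) := by
      intro q hq
      refine (Finset.sum_le_sum fun p hp => hcnt q hq p hp).trans ?_
      rw [Finset.sum_add_distrib, ← Finset.mul_sum, Finset.sum_const, nsmul_eq_mul, mul_one]
      have h2 := mul_le_mul_of_nonneg_left hms0 (Nat.cast_nonneg (α := ℝ) K)
      linarith
    refine (Finset.sum_le_sum h1).trans ?_
    rw [Finset.sum_const, nsmul_eq_mul, ← hk]
    apply le_of_eq
    field_simp
    ring
  have hKlow : (N : ℝ) / Q - 2 ≤ K := by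
    have h1 : (N - 1) < Q * (K + 1) := by
      rw [hK]
      exact Nat.lt_mul_div_succ _ hQ1
    have h2 : N ≤ Q * (K + 1) := by omega
    have h3 : (N : ℝ) ≤ Q * (K + 1) := by exact_mod_cast h2
    have h4 : (N : ℝ) / Q ≤ K + 1 := by
      rw [div_le_iff₀ (by linarith)]
      linarith
    linarith
  have hGI : (I.card : ℝ) ≤ G.card := by exact_mod_cast hIG
  have hQ0 : (0 : ℝ) < Q := by linarith
  have h8 : (N : ℝ) / (8 * Q) = N / Q / 8 := by
    field_simp
  have h9 : 1 / (2 * (Q : ℝ)) * N = N / Q / 2 := by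
    field_simp
  rw [h8] at htot
  rw [h9]
  have h10 : 8 * (2 + k * (Y1 : ℝ)) ≤ N / Q := by
    rw [le_div_iff₀ hQ0]
    linarith
  linarith

end Pool.Agent.Q48.EN
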