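import Pool.Agent.Q270.EN.Stm4

/-!
# Project EN (helper270): many sign functions violate the bound
-/

set_option autoImplicit false

namespace Pool.Agent.Q48.EN

open Finset Filter Topology MeasureTheory
open Pool.Agent.Q270.EN

lemma sgn_val (a : Finset ℕ) (p : ℕ) : sgn a p = 1 ∨ sgn a p = -1 := by
  unfold sgn
  split_ifs
  · exact Or.inr rfl
  · exact Or.inl rfl

/-- the values of the products -/
lemma prod_cmf {P : Set ℕ} {s : ℕ → ℝ} (hs : ∀ p, s p = 1 ∨ s p = -1) {A N : ℕ}
    {T : Finset (ℕ × ℕ)} (hT : Adm A (A * N) T) {n : ℕ} (hn : n ∈ Icc 1 N) :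
    ∏ q ∈ T, cmf P s (q.1 * n + q.2) =
      ∏ p ∈ odd (pr P (2 * A * N)) (∏ q ∈ T, (q.1 * n + q.2)), s p := by
  rw [Finset.mem_Icc] at hn
  have hne : ∀ q ∈ T, q.1 * n + q.2 ≠ 0 := by
    intro q hq
    have h8 := (hT.2.1 q hq).1
    have h9 : 1 ≤ q.1 * n := Nat.mul_pos h8 hn.1
    omega
  rw [cmf_prodA P _ T n hne]
  refine cmf_eq hs ?_ ?_
  · exact Finset.prod_ne_zero_iff.2 hne
  · intro p hp hpd
    rw [Prime.dvd_finsetProd_iff hp.prime] at hpd
    obtain ⟨q, hq, h7⟩ := hpd
    have h8 := Nat.le_of_dvd (Nat.pos_of_ne_zero (hne q hq)) h7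
    have h9 : q.1 * n ≤ A * N := Nat.mul_le_mul (hT.2.1 q hq).2.1 hn.2
    have h10 := (hT.2.1 q hq).2.2
    have h11 : 2 * A * N = A * N + A * N := by ring
    omega

lemma abs_prod_sgn (a O : Finset ℕ) : |∏ p ∈ O, sgn a p| = 1 := by
  rw [Finset.abs_prod]
  refine Finset.prod_eq_one fun p _ => ?_
  rcases sgn_val a p with h | h <;> rw [h] <;> simp

open Classical in
/-- the sum over the subsets of `S'` -/
lemma sum_powerset_sgn (S' O : Finset ℕ) :
    ∑ a ∈ S'.powerset, ∏ p ∈ O, sgn a p = if (∀ p ∈ O, p ∉ S') then (2 : ℝ) ^ S'.card else 0 := by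
  split_ifs with h
  · have h1 : ∀ a ∈ S'.powerset, ∏ p ∈ O, sgn a p = 1 := by
      intro a ha
      refine Finset.prod_eq_one fun p hp => ?_
      unfold sgn
      rw [if_neg]
      intro h2
      exact h p hp (Finset.mem_powerset.1 ha h2)
    rw [Finset.sum_congr rfl h1, Finset.sum_const, Finset.card_powerset]
    simp
  · push Not at h
    obtain ⟨p0, hp0, hp0'⟩ := h
    refine Finset.sum_involution (fun a _ => if p0 ∈ a then a.erase p0 else insert p0 a) ?_ ?_ ?_ ?_
    · intro a _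
      rw [← Finset.mul_prod_erase _ _ hp0, ← Finset.mul_prod_erase O (fun p => sgn _ p) hp0]
      have h1 : ∀ p ∈ O.erase p0, sgn (if p0 ∈ a then a.erase p0 else insert p0 a) p = sgn a p := by
        intro p hp
        have hne := (Finset.mem_erase.1 hp).1
        unfold sgn
        by_cases h2 : p0 ∈ a
        · rw [if_pos h2]
          simp [Finset.mem_erase, hne]
        · rw [if_neg h2]
          simp [Finset.mem_insert, hne]
      rw [Finset.prod_congr rfl h1, ← add_mul]
      have h3 : sgn a p0 + sgn (if p0 ∈ a then a.erase p0 else insert p0 a) p0 = 0 := by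
        unfold sgn
        by_cases h2 : p0 ∈ a
        · simp [h2]
        · simp [h2]
      rw [h3, zero_mul]
    · intro a _ _
      by_cases h2 : p0 ∈ a
      · rw [if_pos h2]
        intro h3
        rw [← h3] at h2
        simp at h2
      · rw [if_neg h2]
        intro h3
        rw [← h3] at h2
        simp at h2
    · intro a ha
      rw [Finset.mem_powerset] at ha ⊢
      by_cases h2 : p0 ∈ a
      · rw [if_pos h2]
        exact (Finset.erase_subset _ _).trans ha
      · rw [if_neg h2]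
        exact Finset.insert_subset hp0' ha
    · intro a _
      by_cases h2 : p0 ∈ a
      · simp only [if_pos h2, Finset.notMem_erase, if_false]
        exact Finset.insert_erase h2
      · simp only [if_neg h2, Finset.mem_insert_self, if_true]
        exact Finset.erase_insert h2

/-- S_LOW. -/
theorem t_LOW : S_LOW := by
  classical
  intro P A N y T hN hy hT ε hε
  obtain ⟨X, hX⟩ : ∃ X, X = 2 * A * N := ⟨_, rfl⟩
  obtain ⟨S, hS⟩ : ∃ S, S = pr P X := ⟨_, rfl⟩
  obtain ⟨S', hS'⟩ : ∃ S', S' = S.filter (y < ·) := ⟨_, rfl⟩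
  rw [← hX, ← hS]
  have hyX : y ≤ X := by rw [hX]; exact hy
  have hcard : S.card = S'.card + (pr P y).card := by
    rw [hS', ← pr_filter_le (P := P) hyX, ← hS, add_comm]
    have h1 := Finset.card_filter_add_card_filter_not (s := S) (fun p => p ≤ y)
    simp only [not_le] at h1
    omega
  have h2S : (2 : ℝ) ^ S.card / 2 ^ (pr P y).card = 2 ^ S'.card := by
    rw [hcard, pow_add]
    field_simp
  rw [h2S]
  obtain ⟨M, hM⟩ : ∃ M : ℕ → ℕ, M = fun n => ∏ q ∈ T, (q.1 * n + q.2) := ⟨_, rfl⟩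
  obtain ⟨G, hG⟩ : ∃ G : Finset ℕ → ℝ, G = fun a =>
    ∑ n ∈ Icc 1 N, ∏ q ∈ T, cmf P (sgn a) (q.1 * n + q.2) := ⟨_, rfl⟩
  have hG1 : ∀ a, G a = ∑ n ∈ Icc 1 N, ∏ p ∈ odd S (M n), sgn a p := by
    intro a
    rw [hG]
    refine Finset.sum_congr rfl fun n hn => ?_
    rw [prod_cmf (sgn_val a) hT hn, hS, hX, hM]
  have hGN : ∀ a, G a ≤ N := by
    intro a
    rw [hG1]
    have h1 : ∀ n ∈ Icc 1 N, ∏ p ∈ odd S (M n), sgn a p ≤ 1 := fun n _ =>
      (le_abs_self _).trans (abs_prod_sgn a _).le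
    refine (Finset.sum_le_sum h1).trans ?_
    simp
  have hev : ∑ a ∈ S'.powerset, G a = 2 ^ S'.card * (evn P T X N y : ℝ) := by
    simp only [hG1]
    rw [Finset.sum_comm]
    have h1 : ∀ n ∈ Icc 1 N, ∑ a ∈ S'.powerset, ∏ p ∈ odd S (M n), sgn a p =
        if (∀ p ∈ pr P X, y < p → Even ((∏ q ∈ T, (q.1 * n + q.2)).factorization p)) then
          (2 : ℝ) ^ S'.card else 0 := by
      intro n _
      rw [sum_powerset_sgn]
      congr 1
      apply propext
      constructor
      · intro h p hp hyp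
        by_contra h2
        rw [Nat.not_even_iff_odd] at h2
        refine h p (Finset.mem_filter.2 ⟨by rw [hS]; exact hp, by rw [hM]; exact h2⟩) ?_
        rw [hS', Finset.mem_filter, hS]
        exact ⟨hp, hyp⟩
      · intro h p hp hp2
        rw [hS', Finset.mem_filter] at hp2
        have h3 := (Finset.mem_filter.1 hp).2
        rw [hS] at hp2
        have h4 := h p hp2.1 hp2.2
        rw [hM] at h3
        rw [← Nat.not_even_iff_odd] at h3
        exact h3 h4
    rw [Finset.sum_congr rfl h1, ← Finset.sum_filter, Finset.sum_const, nsmul_eq_mul, mul_comm]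
    congr 2
  obtain ⟨K, hK⟩ : ∃ K, K = S'.powerset.filter fun a => (evn P T X N y : ℝ) - ε * N ≤ G a := ⟨_, rfl⟩
  have hKle : (K.card : ℝ) ≤ (((S.powerset.filter fun a => (evn P T X N y : ℝ) - ε * N ≤
      ∑ n ∈ Icc 1 N, ∏ q ∈ T, cmf P (sgn a) (q.1 * n + q.2)).card : ℕ) : ℝ) := by
    have h1 : K ⊆ (S.powerset.filter fun a => (evn P T X N y : ℝ) - ε * N ≤
      ∑ n ∈ Icc 1 N, ∏ q ∈ T, cmf P (sgn a) (q.1 * n + q.2)) := by
      intro a ha
      rw [hK, Finset.mem_filter, Finset.mem_powerset] at ha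
      rw [Finset.mem_filter, Finset.mem_powerset]
      refine ⟨ha.1.trans (by rw [hS']; exact Finset.filter_subset _ _), ?_⟩
      have h2 := ha.2
      rw [hG] at h2
      exact h2
    exact_mod_cast Finset.card_le_card h1
  refine le_trans ?_ hKle
  have hsplit : (2 : ℝ) ^ S'.card * (evn P T X N y : ℝ) ≤
      K.card * N + (2 ^ S'.card - K.card) * ((evn P T X N y : ℝ) - ε * N) := by
    rw [← hev, ← Finset.sum_filter_add_sum_filter_not S'.powerset
      (fun a => (evn P T X N y : ℝ) - ε * N ≤ G a)]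
    have h1 : ∑ a ∈ S'.powerset.filter (fun a => (evn P T X N y : ℝ) - ε * N ≤ G a), G a ≤
        K.card * N := by
      rw [← hK]
      refine (Finset.sum_le_sum fun a _ => hGN a).trans ?_
      rw [Finset.sum_const, nsmul_eq_mul]
    have h2 : ∑ a ∈ S'.powerset.filter (fun a => ¬ (evn P T X N y : ℝ) - ε * N ≤ G a), G a ≤
        (2 ^ S'.card - K.card) * ((evn P T X N y : ℝ) - ε * N) := by
      have h3 : ∀ a ∈ S'.powerset.filter (fun a => ¬ (evn P T X N y : ℝ) - ε * N ≤ G a),
          G a ≤ (evn P T X N y : ℝ) - ε * N := by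
        intro a ha
        exact (not_le.1 (Finset.mem_filter.1 ha).2).le
      refine (Finset.sum_le_sum h3).trans (le_of_eq ?_)
      rw [Finset.sum_const, nsmul_eq_mul]
      congr 1
      have h4 := Finset.card_filter_add_card_filter_not (s := S'.powerset)
        (fun a => (evn P T X N y : ℝ) - ε * N ≤ G a)
      rw [← hK, Finset.card_powerset] at h4
      have h5 : (((K.card + (S'.powerset.filter (fun a => ¬ (evn P T X N y : ℝ) - ε * N ≤
        G a)).card : ℕ) : ℕ) : ℝ) = ((2 ^ S'.card : ℕ) : ℝ) := by rw [h4]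
      push_cast at h5
      linarith
    linarith
  have hN0 : (0 : ℝ) < N := by exact_mod_cast hN
  have hev0 : (0 : ℝ) ≤ (evn P T X N y : ℝ) := Nat.cast_nonneg _
  have hK0 : (0 : ℝ) ≤ K.card := Nat.cast_nonneg _
  have h1 : (2 : ℝ) ^ S'.card * (ε * N) ≤ K.card * ((1 + ε) * N) := by
    nlinarith
  rw [mul_div_assoc', div_le_iff₀ (by linarith)]
  have h2 : (2 : ℝ) ^ S'.card * ε * N ≤ K.card * (1 + ε) * N := by linarith
  exact le_of_mul_le_mul_right h2 hN0

end Pool.Agent.Q48.EN
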