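import Pool.Agent.Q270.EN.Stm4

/-!
# Project EN (helper270): few sign functions violate the bound
-/

set_option autoImplicit false

namespace Pool.Agent.Q48.EN

open Finset Filter Topology MeasureTheory
open Pool.Agent.Q270.EN

/-- the sample space: finite sets -/
structure Om : Type where
  /-- the set of the minus signs -/
  st : Finset ℕ

instance : MeasurableSpace Om := ⊤

instance : MeasurableSingletonClass Om := ⟨fun _ => trivial⟩

/-- the uniform measure on a finite family -/
noncomputable def um (B : Finset (Finset ℕ)) : Measure Om :=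
  (B.card : ENNReal)⁻¹ • ∑ a ∈ B, Measure.dirac (Om.mk a)

lemma um_prob {B : Finset (Finset ℕ)} (hB : B.Nonempty) : IsProbabilityMeasure (um B) := by
  constructor
  unfold um
  rw [Measure.smul_apply, Measure.finsetSum_apply]
  have h1 : ∀ a ∈ B, (Measure.dirac (Om.mk a)) (Set.univ : Set Om) = 1 := by
    intro a _
    exact measure_univ
  rw [Finset.sum_congr rfl h1, Finset.sum_const, nsmul_eq_mul, mul_one, smul_eq_mul]
  refine ENNReal.inv_mul_cancel ?_ (ENNReal.natCast_ne_top _)
  have := hB.card_pos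
  simp only [ne_eq, Nat.cast_eq_zero]
  omega

lemma um_int (B : Finset (Finset ℕ)) (F : Om → ℝ) :
    ∫ ω, F ω ∂(um B) = (B.card : ℝ)⁻¹ * ∑ a ∈ B, F (Om.mk a) := by
  unfold um
  rw [integral_smul_measure, integral_finsetSum_measure]
  · rw [ENNReal.toReal_inv, ENNReal.toReal_natCast, smul_eq_mul]
    congr 1
    refine Finset.sum_congr rfl fun a _ => ?_
    exact integral_dirac F _
  · intro a _
    exact integrable_dirac enorm_lt_top

lemma um_real (B : Finset (Finset ℕ)) (s : Set Om) [DecidablePred fun a => Om.mk a ∈ s] :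
    (um B).real s = (B.card : ℝ)⁻¹ * ((B.filter fun a => (Om.mk a) ∈ s).card : ℝ) := by
  rw [measureReal_def]
  unfold um
  rw [Measure.smul_apply, Measure.finsetSum_apply, smul_eq_mul, ENNReal.toReal_mul,
    ENNReal.toReal_inv, ENNReal.toReal_natCast]
  congr 1
  have h1 : ∀ a ∈ B, (Measure.dirac (Om.mk a)) s =
      ((if (Om.mk a) ∈ s then 1 else 0 : ℕ) : ENNReal) := by
    intro a _
    rw [Measure.dirac_apply' _ (show MeasurableSet s from trivial)]
    by_cases h : (Om.mk a) ∈ s
    · rw [Set.indicator_of_mem h, if_pos h]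
      simp
    · rw [Set.indicator_of_notMem h, if_neg h]
      simp
  rw [Finset.sum_congr rfl h1, ← Nat.cast_sum, ENNReal.toReal_natCast, Finset.card_filter]

/-- the signs -/
noncomputable def es (p : ℕ) (ω : Om) : ℝ := sgn ω.st p

lemma es_sgn : Sgn es where
  meas p := by
    intro s _
    trivial
  val p ω := by
    unfold es sgn
    split_ifs
    · exact Or.inr rfl
    · exact Or.inl rfl

lemma neg_es {S a : Finset ℕ} (ha : a ⊆ S) : neg es S (Om.mk a) = a := by
  ext p
  rw [Pool.Agent.Q270.EN.mem_neg]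
  unfold es sgn
  constructor
  · rintro ⟨_, h⟩
    by_contra h2
    rw [if_neg h2] at h
    norm_num at h
  · intro h
    exact ⟨ha h, by rw [if_pos h]⟩

lemma ent_um {B : Finset (Finset ℕ)} (hB : B.Nonempty) (S : Finset ℕ) (hBS : B ⊆ S.powerset) :
    ent (um B) es S = Real.log B.card := by
  classical
  have hc : (0 : ℝ) < B.card := by exact_mod_cast hB.card_pos
  unfold ent
  have h1 : ∀ a ∈ S.powerset, Real.negMulLog ((um B).real {ω | neg es S ω = a}) =
      if a ∈ B then (B.card : ℝ)⁻¹ * Real.log B.card else 0 := by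
    intro a _
    rw [um_real B {ω : Om | neg es S ω = a}]
    have h2 : (B.filter fun b => (Om.mk b) ∈ {ω : Om | neg es S ω = a}) =
        if a ∈ B then {a} else ∅ := by
      ext b
      rw [Finset.mem_filter, Set.mem_setOf_eq]
      constructor
      · rintro ⟨h3, h4⟩
        rw [neg_es (Finset.mem_powerset.1 (hBS h3))] at h4
        rw [h4] at h3
        rw [if_pos h3, Finset.mem_singleton]
        exact h4
      · intro h3
        split_ifs at h3 with h4
        · rw [Finset.mem_singleton] at h3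
          rw [h3]
          exact ⟨h4, neg_es (Finset.mem_powerset.1 (hBS h4))⟩
        · exact absurd h3 (Finset.notMem_empty _)
    rw [h2]
    split_ifs with h3
    · rw [Finset.card_singleton, Nat.cast_one, mul_one]
      unfold Real.negMulLog
      rw [Real.log_inv]
      ring
    · simp
  rw [Finset.sum_congr rfl h1, ← Finset.sum_filter, Finset.sum_const, nsmul_eq_mul]
  have h3 : (S.powerset.filter fun a => a ∈ B) = B := by
    ext a
    rw [Finset.mem_filter]
    exact ⟨fun h => h.2, fun h => ⟨hBS h, h⟩⟩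
  rw [h3, ← mul_assoc, mul_inv_cancel₀ hc.ne', one_mul]

/-- S_UPP. -/
theorem t_UPP (hC : S_COREA) (hTel : S_TEL) : S_UPP := by
  classical
  intro P A N y T w hN hy hAy hT hw ε L hε hL hyε hms
  obtain ⟨X, hX⟩ : ∃ X, X = 2 * A * N := ⟨_, rfl⟩
  obtain ⟨S, hS⟩ : ∃ S, S = pr P X := ⟨_, rfl⟩
  obtain ⟨Bad, hBad⟩ : ∃ B, B = (pr P (2 * A * N)).powerset.filter fun a =>
      evn P T (2 * A * N) N y + ε * N ≤ ‖fs P a T w N‖ := ⟨_, rfl⟩
  rw [← hBad]
  by_cases hBne : Bad.Nonempty
  swap
  · rw [Finset.not_nonempty_iff_eq_empty] at hBne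
    rw [hBne]
    simp only [Finset.card_empty, Nat.cast_zero]
    positivity
  haveI := um_prob hBne
  have hBS : Bad ⊆ S.powerset := by
    rw [hBad, hS, hX]
    exact Finset.filter_subset _ _
  have hc : (0 : ℝ) < Bad.card := by exact_mod_cast hBne.card_pos
  obtain ⟨D, hD⟩ : ∃ D, D = defic (um Bad) es S := ⟨_, rfl⟩
  have hD1 : D = S.card * Real.log 2 - Real.log Bad.card := by
    rw [hD]
    unfold defic
    rw [ent_um hBne S hBS]
  obtain ⟨m, hm1, hm2, hm0, hm3, hm4⟩ := hC Om (um Bad) es es_sgn P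
  have hy0 : (0 : ℝ) < y := by exact_mod_cast hy
  have hSle : S.filter (· ≤ X) = S := by
    rw [Finset.filter_eq_self]
    intro p hp
    rw [hS] at hp
    exact (mem_pr.1 hp).2.2
  have htel := hTel Om (um Bad) es es_sgn S X
  rw [hSle, ← hD] at htel
  have hdd : ∀ p ∈ S, 0 ≤ dd (um Bad) es S p := by
    intro p hp
    rw [hS] at hp ⊢
    have h1 := mem_pr.1 hp
    rw [dd_pr _ _ P h1.2.2]
    exact hm0 p h1.1 h1.2.1
  have hW : ∑ p ∈ (pr P (2 * A * N)).filter (y < ·), dd (um Bad) es (pr P p) p / (p : ℝ) ≤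
      D / y := by
    rw [← hX, ← hS]
    have h1 : ∑ p ∈ S.filter (y < ·), dd (um Bad) es (pr P p) p / (p : ℝ) ≤
        ∑ p ∈ S.filter (y < ·), dd (um Bad) es S p / (y : ℝ) := by
      refine Finset.sum_le_sum fun p hp => ?_
      obtain ⟨h1, h2⟩ := Finset.mem_filter.1 hp
      have h3 := hdd p h1
      rw [hS] at h1 h3 ⊢
      have h4 := mem_pr.1 h1
      rw [dd_pr _ _ P h4.2.2] at h3 ⊢
      refine div_le_div_of_nonneg_left h3 hy0 ?_
      exact_mod_cast h2.le
    refine h1.trans ?_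
    rw [← Finset.sum_div]
    refine div_le_div_of_nonneg_right ?_ hy0.le
    rw [← htel]
    exact Finset.sum_le_sum_of_subset_of_nonneg (Finset.filter_subset _ _)
      fun p hp _ => hdd p hp
  have hfin := fin_ineqA hC (um Bad) es es_sgn P A N y T w hy hAy hT hw L (D / y) hms hW
  have hlow : (evn P T (2 * A * N) N y : ℝ) + ε * N ≤ ∫ ω, ‖∑ n ∈ Icc 1 N, w n *
        ((∏ q ∈ T, cmf P (fun p => es p ω) (q.1 * n + q.2) : ℝ) : ℂ)‖ ∂(um Bad) := by
    rw [um_int]
    have h1 : ∀ a ∈ Bad, (evn P T (2 * A * N) N y : ℝ) + ε * N ≤ ‖∑ n ∈ Icc 1 N, w n *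
        ((∏ q ∈ T, cmf P (fun p => es p (Om.mk a)) (q.1 * n + q.2) : ℝ) : ℂ)‖ := by
      intro a ha
      rw [hBad] at ha
      have h2 := (Finset.mem_filter.1 ha).2
      exact h2
    have h2 := Finset.sum_le_sum h1
    rw [Finset.sum_const, nsmul_eq_mul] at h2
    rw [← div_eq_inv_mul, le_div_iff₀ hc]
    rw [mul_comm]
    exact h2
  have hevn : ((((Icc 1 N).filter fun n : ℕ => ∀ p ∈ pr P (2 * A * N), y < p →
            Even ((∏ q ∈ T, (q.1 * n + q.2)).factorization p)).card : ℕ) : ℝ) =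
      (evn P T (2 * A * N) N y : ℝ) := by
    congr 1
  rw [hevn] at hfin
  obtain ⟨C, hCd⟩ : ∃ C : ℝ, C = 3 * A * T.card := ⟨_, rfl⟩
  obtain ⟨q0, hq0⟩ := hT.1
  have hA1 : (1 : ℝ) ≤ A := by
    exact_mod_cast (hT.2.1 q0 hq0).1.trans (hT.2.1 q0 hq0).2.1
  have hT1 : (1 : ℝ) ≤ T.card := by
    exact_mod_cast hT.1.card_pos
  have hC0 : 0 < C := by
    rw [hCd]
    positivity
  have hN0 : (0 : ℝ) < N := by exact_mod_cast hN
  have hkey : ε ≤ C / Real.sqrt y + C * Real.sqrt (L * (2 * (D / y))) := by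
    have h1 := hlow.trans hfin
    rw [← hCd] at h1
    have h2 : ε * N ≤ (C / Real.sqrt y + C * Real.sqrt (L * (2 * (D / y)))) * N := by
      have h3 : C * N / Real.sqrt y = C / Real.sqrt y * N := by ring
      have h4 : C * N * Real.sqrt (L * (2 * (D / y))) = C * Real.sqrt (L * (2 * (D / y))) * N := by
        ring
      rw [h3, h4] at h1
      linarith
    exact le_of_mul_le_mul_right h2 hN0
  have hsq : C / Real.sqrt y ≤ ε / 2 := by
    rw [div_le_iff₀ (Real.sqrt_pos.2 hy0)]
    have h1 : 6 * (A : ℝ) * T.card / ε ≤ Real.sqrt y := Real.le_sqrt_of_sq_le hyε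
    rw [div_le_iff₀ hε] at h1
    rw [hCd]
    nlinarith
  have h3 : ε / 2 ≤ C * Real.sqrt (L * (2 * (D / y))) := by linarith
  have hDn : 0 ≤ D := by
    rw [← htel]
    exact Finset.sum_nonneg hdd
  have h4 : (ε / 2) ^ 2 ≤ C ^ 2 * (L * (2 * (D / y))) := by
    have h5 := pow_le_pow_left₀ (by positivity) h3 2
    rw [mul_pow, Real.sq_sqrt (by positivity)] at h5
    exact h5
  have hDlow : ε ^ 2 * y / (72 * A ^ 2 * T.card ^ 2 * L) ≤ D := by
    rw [div_le_iff₀ (by positivity)]
    have h5 : C ^ 2 * (L * (2 * (D / y))) = C ^ 2 * L * 2 * D / y := by ring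
    rw [h5, le_div_iff₀ hy0, hCd] at h4
    nlinarith
  have hcard : (Bad.card : ℝ) = 2 ^ S.card * Real.exp (-D) := by
    have h5 : Real.log Bad.card = S.card * Real.log 2 + -D := by
      rw [hD1]
      ring
    rw [← Real.exp_log hc, h5, Real.exp_add]
    congr 1
    rw [mul_comm, Real.exp_mul, Real.exp_log (by norm_num), Real.rpow_natCast]
  rw [hcard, ← hX, ← hS]
  refine mul_le_mul_of_nonneg_left ?_ (by positivity)
  rw [Real.exp_le_exp]
  linarith

end Pool.Agent.Q48.EN
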